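import Pool.Agent.Helper11.BL.Defs

/-!
# Elimination orders (chordal graphs)
-/

open Finset Pool.Agent.Helper71.CE Pool.Agent.Helper88.CE

namespace Pool.Agent.Helper11.BL

/-- [H] elimination orders: `H` restricted to `S` is chordal with cliques of size at most `w` -/
inductive Elim {V : Type*} (H : SimpleGraph V) (w : ℕ) : Set V → Prop
  | empty : Elim H w ∅
  | add {S : Set V} (v : V) (hQ : H.IsClique {a | a ∈ S ∧ H.Adj v a})
      (hc : {a | a ∈ S ∧ H.Adj v a}.ncard + 1 ≤ w) (h : Elim H w S) : Elim H w (insert v S)

/-- a positive semidefinite matrix vanishes in the rows where the diagonal vanishes -/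
theorem elim_zero_of_diag {V : Type*} [Fintype V] {A : V → V → ℝ} (hA : Psd A) {i : V}
    (h : A i i = 0) (j : V) : A i j = 0 := by
  have := hA.minor i j
  rw [h, zero_mul] at this
  exact pow_eq_zero_iff (two_ne_zero) |>.1 (le_antisymm this (sq_nonneg _))

theorem elim_psd_zero {V : Type*} [Fintype V] : Psd (fun _ _ : V => (0 : ℝ)) :=
  ⟨fun _ _ => rfl, fun x => by simp [qf]⟩

/-- **Chordal patterns.** If `B` is positive semidefinite on all sets of at most `w` vertices and
`A` is positive semidefinite with pattern `H` on `S`, `H` chordal on `S` with cliques of size at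
most `w`, then `A ∘ B` is positive semidefinite. -/
theorem had_elim {V : Type*} [Fintype V] {H : SimpleGraph V} {w : ℕ} {S : Set V}
    (hE : Elim H w S) (B : V → V → ℝ) (hs : ∀ i j, B i j = B j i)
    (hB : ∀ F : Finset V, F.card ≤ w → Psd (fun i j : F => B i j)) :
    ∀ A : V → V → ℝ, Psd A → (∀ i j, i ≠ j → ¬ H.Adj i j → A i j = 0) →
      (∀ i, i ∉ S → A i i = 0) → Psd (fun i j => A i j * B i j) := by
  classical
  induction hE with
  | empty =>
    intro A hA _ h0
    have : (fun i j => A i j * B i j) = fun _ _ => (0 : ℝ) := by
      funext i j
      rw [elim_zero_of_diag hA (h0 i (Set.notMem_empty i)) j, zero_mul]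
    rw [this]
    exact elim_psd_zero
  | @add S v hQ hc h ih =>
    intro A hA hp h0
    rcases (hA.diag_nonneg v).eq_or_lt with hv | hv
    · -- the row of `v` vanishes
      refine ih A hA hp fun i hi => ?_
      by_cases hiv : i = v
      · rw [hiv]; exact hv.symm
      · exact h0 i fun h => (Set.mem_insert_iff.1 h).elim hiv hi
    · -- the Schur complement
      have key : ∀ i, A i v ≠ 0 → i ≠ v → i ∈ S ∧ H.Adj v i := by
        intro i hi hiv
        refine ⟨?_, ?_⟩
        · by_contra hn
          exact hi (elim_zero_of_diag hA (h0 i fun h => (Set.mem_insert_iff.1 h).elim hiv hn) v)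
        · by_contra hn
          exact hi (hp i v hiv fun e => hn e.symm)
      have h1 : Psd (fun i j => A i j - A i v * A j v / A v v) := by
        have := psd_schur (hA.submatrix (W := Option V) (fun o => o.elim v id)) hv
        exact this
      have ih1 := ih _ h1 (fun i j hij hn => by
        rw [hp i j hij hn]
        have : A i v = 0 ∨ A j v = 0 := by
          by_contra hcon
          push Not at hcon
          by_cases hiv : i = v
          · have := (key j hcon.2 fun e => hij (hiv.trans e.symm)).2
            exact hn (hiv ▸ this)
          by_cases hjv : j = v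
          · have := (key i hcon.1 hiv).2
            exact hn (hjv ▸ this.symm)
          exact hn (hQ (key i hcon.1 hiv) (key j hcon.2 hjv) hij)
        rcases this with h | h <;> rw [h] <;> simp) (fun i hi => by
        by_cases hiv : i = v
        · rw [hiv]; field_simp; ring
        · have hi' : A i i = 0 := h0 i fun h => (Set.mem_insert_iff.1 h).elim hiv hi
          rw [hi', elim_zero_of_diag hA hi' v]; simp)
      -- the rank one part
      have h2 : Psd (fun i j => A i v * A j v / A v v * B i j) := by
        refine ⟨fun i j => by
          show A i v * A j v / A v v * B i j = A j v * A i v / A v v * B j i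
          rw [hs i j]; ring, fun x => ?_⟩
        let F : Finset V := insert v (Finset.univ.filter fun a => a ∈ S ∧ H.Adj v a)
        have hF : F.card ≤ w := by
          refine (Finset.card_insert_le _ _).trans ?_
          have e : (Finset.univ.filter fun a => a ∈ S ∧ H.Adj v a).card =
              {a | a ∈ S ∧ H.Adj v a}.ncard := by
            rw [← Set.ncard_coe_finset]
            congr 1
            ext a
            simp
          rw [e]
          exact hc
        have h3 := psdOn_of_restrict (E := B) (Q := (F : Set V)) F (fun i => by simp) (hB F hF)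
          (fun i => x i * A i v) (fun i hi => by
            have : A i v = 0 := by
              by_contra hne
              apply hi
              by_cases hiv : i = v
              · simp [F, hiv]
              · have := key i hne hiv
                simp [F, this.1, this.2]
            rw [this, mul_zero])
        have e : qf (fun i j => A i v * A j v / A v v * B i j) x =
            qf B (fun i => x i * A i v) / A v v := by
          simp only [qf, Finset.sum_div]
          refine Finset.sum_congr rfl fun i _ => Finset.sum_congr rfl fun j _ => by ring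
        rw [e]
        exact div_nonneg h3 hv.le
      have e : (fun i j => A i j * B i j) = fun i j =>
          (A i j - A i v * A j v / A v v) * B i j + A i v * A j v / A v v * B i j := by
        funext i j
        ring
      rw [e]
      exact ih1.add h2

theorem elim_sp_nonneg {β a : ℝ} (ha : 0 ≤ a) : sp β a = a * pw (β - 1) a := by
  rw [sp, abs_of_nonneg ha]

theorem elim_sp_zero (β : ℝ) : sp β 0 = 0 := by simp [sp]

/-- [H1], from the signed FitzGerald–Horn theorem -/
theorem sc_of_elim_of {V : Type*} [Fintype V] (hsfh : ∀ F : Finset V, SFH (Option F))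
    {G H : SimpleGraph V} {S : Set V} {w : ℕ}
    (hE : Elim H w S) (hG : ∀ a ∈ S, ∀ b ∈ S, G.Adj a b → H.Adj a b) {β : ℝ} (hβ : (w : ℝ) < β)
    (hβ1 : 1 < β) : SC G S β := by
  classical
  intro M hM hM0 hMp hMs
  have hA : Psd (fun i j => M (some i) (some j)) := hM.submatrix some
  have hAs : ∀ i, i ∉ S → M (some i) (some i) = 0 := hMs
  have hAp : ∀ i j, i ≠ j → ¬ H.Adj i j → M (some i) (some j) = 0 := by
    intro i j hij hn
    by_cases hi : i ∈ S
    · by_cases hj : j ∈ S
      · exact hMp i j hij fun e => hn (hG i hi j hj e)
      · have := elim_zero_of_diag hA (hAs j hj) i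
        have h2 := hM.1 (some i) (some j)
        rw [h2]; exact this
    · exact elim_zero_of_diag hA (hAs i hi) j
  have hsy : ∀ a b, sp β (M a b) = sp β (M b a) := fun a b => by rw [hM.1 a b]
  -- the even power on few points
  have hN : ∀ F : Finset V, F.card ≤ w → Psd (fun a b : Option F =>
      ph (β - 1) (M (Option.map Subtype.val a) (Option.map Subtype.val b))) := by
    intro F hF
    refine (hsfh F _ (hM.submatrix (W := Option F) (Option.map Subtype.val)) (β - 1)
      (by linarith) ?_).1
    rw [Fintype.card_option, Fintype.card_coe]
    have : (F.card : ℝ) ≤ w := by exact_mod_cast hF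
    push_cast
    linarith
  rcases (hM.diag_nonneg none).eq_or_lt with h0 | h0
  · refine psd_of_none_zero hsy ?_ (fun i => ?_) ?_
    · rw [← h0]; exact elim_sp_zero β
    · rw [hM.none_zero h0.symm i]; exact elim_sp_zero β
    · have h1 := had_elim hE (fun i j => ph (β - 1) (M (some i) (some j)))
        (fun i j => by rw [hM.1]) (fun F hF => (hN F hF).submatrix (W := F) some) _ hA hAp hAs
      exact h1
  · have hp : 0 < pw (β - 1) (M none none) := pw_pos h0
    refine psd_of_schur hsy ?_ ?_
    · rw [elim_sp_nonneg h0.le]
      exact mul_pos h0 hp
    · have h1 := had_elim hE (schur fun a b => ph (β - 1) (M a b)) (fun i j => by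
          simp only [schur]
          rw [hM.1 (some i) (some j)]; ring) (fun F hF => by
          have := psd_schur (hN F hF) (by
            show 0 < ph (β - 1) (M none none)
            rw [ph, abs_of_pos h0]; exact hp)
          exact this) _ hA hAp hAs
      have h2 := (psd_schur hM h0).hadamard (psd_rankOne fun i => ph (β - 1) (M (some i) none))
      have h3 : Psd (fun i j => (schur M i j * (ph (β - 1) (M (some i) none) *
          ph (β - 1) (M (some j) none))) / pw (β - 1) (M none none)) := by
        refine ⟨fun i j => congrArg (· / pw (β - 1) (M none none)) (h2.1 i j), fun x => ?_⟩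
        have e : qf (fun i j => (schur M i j * (ph (β - 1) (M (some i) none) *
          ph (β - 1) (M (some j) none))) / pw (β - 1) (M none none)) x =
          qf (fun i j => schur M i j * (ph (β - 1) (M (some i) none) *
          ph (β - 1) (M (some j) none))) x / pw (β - 1) (M none none) := by
          simp only [qf, Finset.sum_div]
          refine Finset.sum_congr rfl fun i _ => Finset.sum_congr rfl fun j _ => by ring
        rw [e]
        exact div_nonneg (h2.2 x) hp.le
      have e : schur (fun a b => sp β (M a b)) = fun i j =>
          M (some i) (some j) * schur (fun a b => ph (β - 1) (M a b)) i j +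
          (schur M i j * (ph (β - 1) (M (some i) none) *
            ph (β - 1) (M (some j) none))) / pw (β - 1) (M none none) := by
        funext i j
        have hq : ph (β - 1) (M none none) = pw (β - 1) (M none none) := by
          rw [ph, abs_of_pos h0]
        simp only [schur, elim_sp_nonneg h0.le, hq]
        have h5 : ∀ a, sp β a = a * ph (β - 1) a := fun a => rfl
        rw [h5, h5, h5]
        have h6 := h0.ne'
        have h7 := hp.ne'
        field_simp
        ring
      rw [e]
      exact h1.add h3

/-- [H2] -/
theorem pw_of_elim {V : Type*} [Fintype V] {G H : SimpleGraph V} {S : Set V} {w : ℕ}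
    (hE : Elim H w S) (hG : ∀ a ∈ S, ∀ b ∈ S, G.Adj a b → H.Adj a b) {β : ℝ}
    (hβ : (w : ℝ) - 1 ≤ β) (hβ1 : 1 ≤ β) : PW G S β := by
  classical
  intro A hA hAs
  have hAp : ∀ i j, i ≠ j → ¬ H.Adj i j → A i j = 0 := by
    intro i j hij hn
    by_cases hi : i ∈ S
    · by_cases hj : j ∈ S
      · exact hA.2.2 i j hij fun e => hn (hG i hi j hj e)
      · rw [hA.1.1 i j]
        exact elim_zero_of_diag hA.1 (hAs j hj) i
    · exact elim_zero_of_diag hA.1 (hAs i hi) j
  have h1 := had_elim hE (hpow A (β - 1)) (hpow_symm hA.1 _) (fun F hF => by
    have : (F.card : ℝ) ≤ w := by exact_mod_cast hF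
    exact fitzGerald_horn F _ (hA.1.submatrix (W := F) Subtype.val) (fun i j => hA.2.1 _ _)
      (β - 1) (by linarith) (by rw [Fintype.card_coe]; linarith)) A hA.1 hAp hAs
  have e : hpow A β = fun i j => A i j * hpow A (β - 1) i j := by
    funext i j
    simp only [hpow]
    rw [pw_add_one (hA.2.1 i j), mul_comm]
  rw [e]
  exact h1

end Pool.Agent.Helper11.BL
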