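import Pool.Agent.Helper11.BL.SFH
import Pool.Agent.Helper15.BL.Elim

/-!
# Cones over chordal graphs with a signed row
-/

open Finset Pool.Agent.Helper71.CE Pool.Agent.Helper88.CE

namespace Pool.Agent.Helper11.BL

/-- [H1] -/
theorem sc_of_elim {V : Type*} [Fintype V] {G H : SimpleGraph V} {S : Set V} {w : ℕ}
    (hE : Elim H w S) (hG : ∀ a ∈ S, ∀ b ∈ S, G.Adj a b → H.Adj a b) {β : ℝ} (hβ : (w : ℝ) < β)
    (hβ1 : 1 < β) : SC G S β :=
  sc_of_elim_of (fun _ => sfh _) hE hG hβ hβ1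

end Pool.Agent.Helper11.BL
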