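import Pool.Agent.Helper11.BL.Defs

/-!
# The correction term with signed vectors
-/

open Finset Pool.Agent.Helper71.CE Pool.Agent.Helper88.CE

namespace Pool.Agent.Helper11.BL

variable {V W : Type*} [Fintype V] [Fintype W]

/-- property `DecSq` with a signed vector -/
def DecSg (G : SimpleGraph V) : Prop :=
  ∀ (A : V → V → ℝ) (h : V → ℝ), InPG G A →
    Psd (fun i j => A i j - h i * h j) → Tame G (fun i j => A i j * (A i j - h i * h j))

/-- edge weights for the correction term, signed vectors -/
def HasWeightsSg [DecidableEq V] (G : SimpleGraph V) : Prop :=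
  ∀ (R : V → V → ℝ) (c : V → ℝ), InPG G R → (∀ i, R i i = 1) →
    Psd (fun i j => R i j - c i * c j) →
    ∃ w : V → V → ℝ, (∀ i j, 0 ≤ w i j) ∧ (∀ i, ∑ j ∈ univ.erase i, w i j ≤ 1) ∧
      ∀ i j, i ≠ j → R i j ^ 2 * (R i j - c i * c j) ^ 2 ≤
        w i j * w j i * ((1 - c i ^ 2) * (1 - c j ^ 2))

/-- edge weights for signed vectors give property `DecSg` -/
theorem decSg_of_weights [DecidableEq V] {G : SimpleGraph V} (hW : HasWeightsSg G) :
    DecSg G := by
  intro A h hA hD K hK hKc
  have hA' := hA
  obtain ⟨hP, h0, hz⟩ := hA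
  have hK0 : ∀ i, 0 ≤ K i i := fun i => (hKc {i} (by simp)).diag (Set.mem_singleton i)
  have hKm : ∀ i j, G.Adj i j → K i j ^ 2 ≤ K i i * K j j := by
    intro i j hij
    refine (hKc {i, j} ?_).minor hK (by simp) (by simp) hij.ne
    intro a ha b hb hab
    rcases ha with rfl | rfl <;> rcases hb with rfl | rfl
    · exact absurd rfl hab
    · exact hij
    · exact hij.symm
    · exact absurd rfl hab
  have hdiag : ∀ i, h i ^ 2 ≤ A i i := by
    intro i
    have := hD.diag_nonneg i
    nlinarith
  have hDm : ∀ i j, (A i j - h i * h j) ^ 2 ≤ (A i i - h i ^ 2) * (A j j - h j ^ 2) := by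
    intro i j
    have := hD.minor i j
    rw [sq (h i), sq (h j)]
    exact this
  -- normalisation
  set s : V → ℝ := fun i => if A i i = 0 then 0 else 1 / √(A i i) with hs
  have hs0 : ∀ i, 0 ≤ s i := by
    intro i; rw [hs]; simp only; split_ifs <;> positivity
  have hss : ∀ i, A i i ≠ 0 → s i ^ 2 * A i i = 1 := by
    intro i hi
    rw [hs]; simp only [if_neg hi]
    rw [div_pow, one_pow, Real.sq_sqrt (h0 i i)]
    field_simp
  have hs00 : ∀ i, A i i = 0 → s i = 0 := by
    intro i hi; rw [hs]; simp only [if_pos hi]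
  set χ : V → ℝ := fun i => if A i i = 0 then 1 else 0 with hχ
  have hχ0 : ∀ i, 0 ≤ χ i := by intro i; rw [hχ]; simp only; split_ifs <;> norm_num
  set R : V → V → ℝ := fun i j => s i * A i j * s j + (if i = j then χ i else 0) with hR
  set c : V → ℝ := fun i => s i * h i with hc
  have hpsdχ : Psd (fun i j : V => if i = j then χ i else 0) := by
    refine ⟨fun i j => ?_, fun x => ?_⟩
    · show (if i = j then χ i else 0) = (if j = i then χ j else 0)
      by_cases e : i = j
      · rw [if_pos e, if_pos e.symm, e]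
      · rw [if_neg e, if_neg (Ne.symm e)]
    · have e : qf (fun i j : V => if i = j then χ i else 0) x = ∑ i, x i ^ 2 * χ i := by
        simp only [qf]
        refine Finset.sum_congr rfl fun i _ => ?_
        rw [Finset.sum_eq_single i]
        · rw [if_pos rfl]; ring
        · intro j _ hj; rw [if_neg (Ne.symm hj)]; ring
        · intro h; exact absurd (mem_univ i) h
      rw [e]
      exact Finset.sum_nonneg fun i _ => mul_nonneg (sq_nonneg _) (hχ0 i)
  have hcong : ∀ B : V → V → ℝ, Psd B → Psd (fun i j => s i * B i j * s j) := by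
    intro B hB
    have := hB.hadamard (psd_rankOne s)
    have e : (fun i j => s i * B i j * s j) = fun i j => B i j * (s i * s j) := by
      funext i j; ring
    rw [e]; exact this
  have hRp : Psd R := (hcong A hP).add hpsdχ
  have hR1 : ∀ i, R i i = 1 := by
    intro i
    rw [hR, hχ]; simp only [if_true]
    by_cases hi : A i i = 0
    · rw [if_pos hi, hs00 i hi]; ring
    · rw [if_neg hi]
      have := hss i hi
      linear_combination this
  have hRin : InPG G R := by
    refine ⟨hRp, fun i j => ?_, fun i j hij hG => ?_⟩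
    · refine add_nonneg (mul_nonneg (mul_nonneg (hs0 i) (h0 i j)) (hs0 j)) ?_
      split_ifs
      · exact hχ0 i
      · exact le_refl _
    · rw [hR]; simp only [if_neg hij]
      rw [hz i j hij hG]; ring
  have hRc : Psd (fun i j => R i j - c i * c j) := by
    have h1 := (hcong _ hD).add hpsdχ
    have e : (fun i j => R i j - c i * c j) =
        fun i j => s i * (A i j - h i * h j) * s j + (if i = j then χ i else 0) := by
      funext i j; rw [hR, hc]; ring
    rw [e]; exact h1
  obtain ⟨w, hw0, hw1, hw2⟩ := hW R c hRin hR1 hRc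
  set F : V → V → ℝ := fun i j => K i j * (A i j - h i * h j) with hF
  have hFd : ∀ i, 0 ≤ F i i := by
    intro i
    rw [hF]; simp only
    exact mul_nonneg (hK0 i) (by have := hdiag i; nlinarith)
  have hKF : (fun i j => K i j * (A i j * (A i j - h i * h j))) = fun i j => A i j * F i j := by
    funext i j; rw [hF]; ring
  rw [hKF]
  refine Pool.Agent.Helper76.CT.psd_of_split (u := fun i j => w i j * (A i i * F i i)) ?_ ?_ ?_ ?_
  · intro i j
    rw [hF]; simp only
    rw [hP.1 i j, hK i j, mul_comm (h i)]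
  · intro i j
    exact mul_nonneg (hw0 i j) (mul_nonneg (h0 i i) (hFd i))
  · intro i j hij
    show (A i j * F i j) ^ 2 ≤ w i j * (A i i * F i i) * (w j i * (A j j * F j j))
    have hnn : 0 ≤ w i j * (A i i * F i i) * (w j i * (A j j * F j j)) :=
      mul_nonneg (mul_nonneg (hw0 i j) (mul_nonneg (h0 i i) (hFd i)))
        (mul_nonneg (hw0 j i) (mul_nonneg (h0 j j) (hFd j)))
    by_cases hAij : A i j = 0
    · rw [hAij]; simpa using hnn
    have hpos : 0 < A i j ^ 2 := by positivity
    have hm := hP.minor i j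
    have hAi : A i i ≠ 0 := by
      intro e; rw [e, zero_mul] at hm; linarith
    have hAj : A j j ≠ 0 := by
      intro e; rw [e, mul_zero] at hm; linarith
    have hAi0 : 0 < A i i := lt_of_le_of_ne (h0 i i) (Ne.symm hAi)
    have hAj0 : 0 < A j j := lt_of_le_of_ne (h0 j j) (Ne.symm hAj)
    have hadj : G.Adj i j := by
      by_contra hn
      exact hAij (hz i j hij hn)
    have hsc' : F i j ^ 2 * ((A i i - h i ^ 2) * (A j j - h j ^ 2)) ≤
        (A i j - h i * h j) ^ 2 * (F i i * F j j) := by
      have e1 : F i i = K i i * (A i i - h i ^ 2) := by rw [hF]; ring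
      have e2 : F j j = K j j * (A j j - h j ^ 2) := by rw [hF]; ring
      have e3 : F i j = K i j * (A i j - h i * h j) := by rw [hF]
      rw [e1, e2, e3]
      have hdd : 0 ≤ (A i j - h i * h j) ^ 2 * ((A i i - h i ^ 2) * (A j j - h j ^ 2)) :=
        mul_nonneg (sq_nonneg _) (mul_nonneg (by linarith [hdiag i]) (by linarith [hdiag j]))
      nlinarith [mul_le_mul_of_nonneg_right (hKm i j hadj) hdd]
    have hdd : 0 ≤ (A i i - h i ^ 2) * (A j j - h j ^ 2) :=
      mul_nonneg (by linarith [hdiag i]) (by linarith [hdiag j])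
    rcases hdd.eq_or_lt with hd | hd
    · -- then `F i j = 0`
      have h2 := hDm i j
      rw [← hd] at h2
      have h3 : A i j - h i * h j = 0 := by
        have := le_antisymm h2 (sq_nonneg _)
        exact pow_eq_zero_iff two_ne_zero |>.1 this
      have h4 : F i j = 0 := by
        rw [hF]; simp only; rw [h3, mul_zero]
      rw [h4]; simpa using hnn
    · -- the weighted inequality
      have hwij := hw2 i j hij
      have e1 : R i j = s i * A i j * s j := by rw [hR]; simp only [if_neg hij, add_zero]
      have e2 : 1 - c i ^ 2 = s i ^ 2 * (A i i - h i ^ 2) := by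
        rw [hc]; simp only; have := hss i hAi; linear_combination -this
      have e3 : 1 - c j ^ 2 = s j ^ 2 * (A j j - h j ^ 2) := by
        rw [hc]; simp only; have := hss j hAj; linear_combination -this
      have e4 : R i j - c i * c j = s i * (A i j - h i * h j) * s j := by rw [e1, hc]; ring
      rw [e4, e1, e2, e3] at hwij
      have h2 : A i j ^ 2 * (A i j - h i * h j) ^ 2 ≤
          w i j * w j i * ((A i i - h i ^ 2) * (A j j - h j ^ 2)) * (A i i * A j j) := by
        have h3 := mul_le_mul_of_nonneg_right hwij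
          (show 0 ≤ A i i ^ 2 * A j j ^ 2 by positivity)
        have a1 := hss i hAi
        have a2 := hss j hAj
        have l1 : (s i * A i j * s j) ^ 2 * (s i * (A i j - h i * h j) * s j) ^ 2 *
            (A i i ^ 2 * A j j ^ 2) = A i j ^ 2 * (A i j - h i * h j) ^ 2 *
            ((s i ^ 2 * A i i) ^ 2 * (s j ^ 2 * A j j) ^ 2) := by ring
        have l2 : w i j * w j i * (s i ^ 2 * (A i i - h i ^ 2) * (s j ^ 2 * (A j j - h j ^ 2))) *
            (A i i ^ 2 * A j j ^ 2) = w i j * w j i * ((A i i - h i ^ 2) * (A j j - h j ^ 2)) *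
            (A i i * A j j) * ((s i ^ 2 * A i i) * (s j ^ 2 * A j j)) := by ring
        rw [l1, l2, a1, a2] at h3
        simpa using h3
      have h6 : (A i j * F i j) ^ 2 * ((A i i - h i ^ 2) * (A j j - h j ^ 2)) ≤
          w i j * (A i i * F i i) * (w j i * (A j j * F j j)) *
          ((A i i - h i ^ 2) * (A j j - h j ^ 2)) := by
        calc (A i j * F i j) ^ 2 * ((A i i - h i ^ 2) * (A j j - h j ^ 2))
            = A i j ^ 2 * (F i j ^ 2 * ((A i i - h i ^ 2) * (A j j - h j ^ 2))) := by ring
          _ ≤ A i j ^ 2 * ((A i j - h i * h j) ^ 2 * (F i i * F j j)) :=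
              mul_le_mul_of_nonneg_left hsc' (sq_nonneg _)
          _ = (A i j ^ 2 * (A i j - h i * h j) ^ 2) * (F i i * F j j) := by ring
          _ ≤ (w i j * w j i * ((A i i - h i ^ 2) * (A j j - h j ^ 2)) * (A i i * A j j)) *
              (F i i * F j j) := mul_le_mul_of_nonneg_right h2 (mul_nonneg (hFd i) (hFd j))
          _ = _ := by ring
      exact le_of_mul_le_mul_right h6 hd
  · intro i
    show ∑ j ∈ univ.erase i, w i j * (A i i * F i i) ≤ A i i * F i i
    rw [← Finset.sum_mul]
    have := mul_le_mul_of_nonneg_right (hw1 i) (mul_nonneg (h0 i i) (hFd i))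
    linarith

/-- graphs without closed walks of length `3` and `5` have property `DecSg` -/
theorem decSg_of_seven {V : Type*} [Fintype V] {G : SimpleGraph V} (hG : G.CliqueFree 3)
    (h5 : ∀ a b c d e, G.Adj a b → G.Adj b c → G.Adj c d → G.Adj d e → ¬ G.Adj e a) :
    DecSg G := by
  classical
  exact decSg_of_weights fun _R _c hR h1 hc => exists_weights hG h5 hR h1 hc

theorem DecSg.decSq {G : SimpleGraph V} (hG : DecSg G) : DecSq G :=
  fun A h hA _ hD => hG A h hA hD

theorem DecSg.cone {G : SimpleGraph V} (hG : DecSg G) : DecSg (Pool.Agent.Helper71.CE.cone G) :=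
  fun _A h hA hD => Tame.cone (hA.1.hadamard hD) (hG _ (fun i => h (some i)) hA.block
    (hD.submatrix some))

theorem DecSg.dsum {G : SimpleGraph V} {H : SimpleGraph W} (h1 : DecSg G) (h2 : DecSg H) :
    DecSg (dsum G H) := by
  intro A h hA hD E hE hQ
  refine psd_block ?_ ?_ ?_ ?_
  · intro i j
    show E i j * (A i j * (A i j - h i * h j)) = E j i * (A j i * (A j i - h j * h i))
    rw [hE i j, hA.1.1 i j]
    ring
  · intro i j
    show E (Sum.inl i) (Sum.inr j) * (A (Sum.inl i) (Sum.inr j) * _) = 0
    rw [inPG_cross hA i j]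
    ring
  · refine h1 _ (fun i => h (Sum.inl i)) (inPG_left hA) (hD.submatrix Sum.inl)
      (fun i j => E (Sum.inl i) (Sum.inl j)) (fun i j => hE _ _) fun Q hQG => ?_
    refine psdOn_inl (hQ _ ?_)
    rintro _ ⟨i, hi, rfl⟩ _ ⟨j, hj, rfl⟩ hij
    exact dsum_inl.2 (hQG hi hj fun e => hij (by rw [e]))
  · refine h2 _ (fun i => h (Sum.inr i)) (inPG_right hA) (hD.submatrix Sum.inr)
      (fun i j => E (Sum.inr i) (Sum.inr j)) (fun i j => hE _ _) fun Q hQG => ?_
    refine psdOn_inr (hQ _ ?_)
    rintro _ ⟨i, hi, rfl⟩ _ ⟨j, hj, rfl⟩ hij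
    exact dsum_inr.2 (hQG hi hj fun e => hij (by rw [e]))

end Pool.Agent.Helper11.BL
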