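import Pool.Agent.Helper11.BL.Defs

/-!
# Triangle-free graphs and cones over them, matrices with signed entries
-/

open Finset Pool.Agent.Helper71.CE Pool.Agent.Helper88.CE

namespace Pool.Agent.Helper11.BL

variable {V W : Type*} [Fintype V] [Fintype W]

/-- property `DecTwo` for matrices with entries of any sign -/
def DecTwoS (G : SimpleGraph V) : Prop :=
  ∀ A : V → V → ℝ, Psd A → (∀ i j, i ≠ j → ¬ G.Adj i j → A i j = 0) →
    Tame G (fun i j => A i j * A i j)

/-- Bessel: the neighbours of a vertex of a triangle-free graph are mutually orthogonal. -/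
theorem besselS [DecidableEq V] {G : SimpleGraph V} (hG : G.CliqueFree 3) {A : V → V → ℝ}
    (hP : Psd A) (hz : ∀ i j, i ≠ j → ¬ G.Adj i j → A i j = 0) (i : V) : ∑ j ∈ univ.erase i, A i j ^ 2 / A j j ≤ A i i := by
  set c : V → ℝ := fun j => if j = i then 1 else -(A i j / A j j) with hc
  have hq := hP.2 c
  have ci : c i = 1 := by simp [hc]
  have cj : ∀ j ∈ univ.erase i, c j = -(A i j / A j j) := by
    intro j hj
    simp [hc, Finset.ne_of_mem_erase hj]
  -- a neighbour whose diagonal entry vanishes does not contribute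
  have hd : ∀ j, A j j = 0 → A i j = 0 := by
    intro j hj
    have := hP.minor i j
    rw [hj, mul_zero] at this
    nlinarith [sq_nonneg (A i j)]
  have horth : ∀ j ∈ univ.erase i, ∀ k ∈ univ.erase i, j ≠ k →
      A i j / A j j * A j k * (A i k / A k k) = 0 := by
    intro j hj k hk hjk
    by_cases e1 : A i j = 0
    · rw [e1]
      simp
    by_cases e2 : A i k = 0
    · rw [e2]
      simp
    have a1 : G.Adj i j := by
      by_contra h
      exact e1 (hz i j (Finset.ne_of_mem_erase hj).symm h)
    have a2 : G.Adj i k := by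
      by_contra h
      exact e2 (hz i k (Finset.ne_of_mem_erase hk).symm h)
    have a3 : ¬ G.Adj j k := by
      intro a3
      exact hG {i, j, k} (SimpleGraph.is3Clique_triple_iff.2 ⟨a1, a2, a3⟩)
    rw [hz j k hjk a3]
    simp
  have hrow : ∀ j ∈ univ.erase i, ∑ k, c j * A j k * c k = -(A i j ^ 2 / A j j) +
      A i j ^ 2 / A j j := by
    intro j hj
    rw [← Finset.add_sum_erase univ _ (mem_univ i), ci, cj j hj, Finset.sum_eq_single j]
    · rw [cj j hj, hP.1 j i]
      by_cases e : A j j = 0
      · rw [hd j e]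
        simp
      · field_simp
    · intro k hk hkj
      rw [cj k hk]
      have := horth j hj k hk (Ne.symm hkj)
      linear_combination this
    · intro h
      exact absurd hj h
  have hrow2 : ∑ k, c i * A i k * c k = A i i - ∑ j ∈ univ.erase i, A i j ^ 2 / A j j := by
    rw [← Finset.add_sum_erase univ _ (mem_univ i), ci]
    have : ∀ k ∈ univ.erase i, (1 : ℝ) * A i k * c k = -(A i k ^ 2 / A k k) := by
      intro k hk
      rw [cj k hk]
      ring
    rw [Finset.sum_congr rfl this, Finset.sum_neg_distrib]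
    ring
  unfold qf at hq
  rw [← Finset.add_sum_erase univ _ (mem_univ i), hrow2, Finset.sum_congr rfl hrow] at hq
  simp only [neg_add_cancel, sum_const_zero, add_zero] at hq
  linarith

/-- triangle-free graphs have property `DecTwoS` -/
theorem decTwoS_of_cliqueFree {V : Type*} [Fintype V] {G : SimpleGraph V}
    (hG : G.CliqueFree 3) : DecTwoS G := by
  classical
  intro A hP hz E hE hQ
  have hE0 : ∀ i, 0 ≤ E i i := fun i => (hQ {i} (by simp)).diag (Set.mem_singleton i)
  have hEm : ∀ i j, G.Adj i j → E i j ^ 2 ≤ E i i * E j j := by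
    intro i j hij
    refine (hQ {i, j} ?_).minor hE (by simp) (by simp) hij.ne
    intro a ha b hb hab
    rcases ha with rfl | rfl <;> rcases hb with rfl | rfl
    · exact absurd rfl hab
    · exact hij
    · exact hij.symm
    · exact absurd rfl hab
  refine Pool.Agent.Helper76.CT.psd_of_split
    (u := fun i j => E i i * A i i * (A i j ^ 2 / A j j)) ?_ ?_ ?_ ?_
  · intro i j
    show E i j * (A i j * A i j) = E j i * (A j i * A j i)
    rw [hE i j, hP.1 i j]
  · intro i j
    exact mul_nonneg (mul_nonneg (hE0 i) (hP.diag_nonneg i)) (div_nonneg (sq_nonneg _) (hP.diag_nonneg j))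
  · intro i j hij
    show (E i j * (A i j * A i j)) ^ 2 ≤ E i i * A i i * (A i j ^ 2 / A j j) *
      (E j j * A j j * (A j i ^ 2 / A i i))
    by_cases e0 : A i j = 0
    · rw [e0, hP.1 j i, e0]; simp
    · have hadj : G.Adj i j := by
        by_contra h
        exact e0 (hz i j hij h)
      have hm := hP.minor i j
      have hpos : 0 < A i j ^ 2 := by positivity
      have hi : A i i ≠ 0 := by
        intro e; rw [e, zero_mul] at hm; linarith
      have hj : A j j ≠ 0 := by
        intro e; rw [e, mul_zero] at hm; linarith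
      rw [hP.1 j i]
      have e1 : E i i * A i i * (A i j ^ 2 / A j j) * (E j j * A j j * (A i j ^ 2 / A i i)) =
          (E i i * E j j) * (A i j ^ 2) ^ 2 := by
        field_simp
      rw [e1]
      have e2 : (E i j * (A i j * A i j)) ^ 2 = E i j ^ 2 * (A i j ^ 2) ^ 2 := by ring
      rw [e2]
      exact mul_le_mul_of_nonneg_right (hEm i j hadj) (by positivity)
  · intro i
    show _ ≤ E i i * (A i i * A i i)
    rw [← mul_sum, ← mul_assoc]
    exact mul_le_mul_of_nonneg_left (besselS hG hP hz i)
      (mul_nonneg (hE0 i) (hP.diag_nonneg i))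

theorem DecTwoS.cone {G : SimpleGraph V} (hG : DecTwoS G) :
    DecTwoS (Pool.Agent.Helper71.CE.cone G) := fun A hP hz =>
  Tame.cone (hP.hadamard hP) (hG (fun i j => A (some i) (some j)) (hP.submatrix some)
    fun i j hij hn => hz _ _ (fun e => hij (Option.some_injective _ e))
      fun h => hn (cone_adj_some.1 h))

theorem DecTwoS.decTwo {G : SimpleGraph V} (hG : DecTwoS G) : DecTwo G :=
  fun A hA => hG A hA.1 hA.2.2

theorem DecTwoS.dsum {G : SimpleGraph V} {H : SimpleGraph W} (h1 : DecTwoS G) (h2 : DecTwoS H) :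
    DecTwoS (dsum G H) := by
  intro A hP hz E hE hQ
  have hcross : ∀ (i : V) (j : W), A (Sum.inl i) (Sum.inr j) = 0 := fun i j =>
    hz _ _ (by simp) dsum_lr
  refine psd_block ?_ ?_ ?_ ?_
  · intro i j
    show E i j * (A i j * A i j) = E j i * (A j i * A j i)
    rw [hE i j, hP.1 i j]
  · intro i j
    show E (Sum.inl i) (Sum.inr j) * (A (Sum.inl i) (Sum.inr j) * _) = 0
    rw [hcross i j]
    ring
  · refine h1 _ (hP.submatrix Sum.inl) (fun i j hij hn => hz _ _ (fun e => hij (Sum.inl.inj e))
      fun e => hn (dsum_inl.1 e)) (fun i j => E (Sum.inl i) (Sum.inl j)) (fun i j => hE _ _)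
      fun Q hQG => ?_
    refine psdOn_inl (hQ _ ?_)
    rintro _ ⟨i, hi, rfl⟩ _ ⟨j, hj, rfl⟩ hij
    exact dsum_inl.2 (hQG hi hj fun e => hij (by rw [e]))
  · refine h2 _ (hP.submatrix Sum.inr) (fun i j hij hn => hz _ _ (fun e => hij (Sum.inr.inj e))
      fun e => hn (dsum_inr.1 e)) (fun i j => E (Sum.inr i) (Sum.inr j)) (fun i j => hE _ _)
      fun Q hQG => ?_
    refine psdOn_inr (hQ _ ?_)
    rintro _ ⟨i, hi, rfl⟩ _ ⟨j, hj, rfl⟩ hij
    exact dsum_inr.2 (hQG hi hj fun e => hij (by rw [e]))

end Pool.Agent.Helper11.BL
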